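import Mathlib

/-!
# The limited visibility search number of Hamming graphs

If `m * (2 + H (d-1)) < n`, where `H` denotes the harmonic numbers, then `m` cops do not see the
robber on the Hamming graph `H(d, n)` with visibility `d - 1`.
-/

set_option autoImplicit false

namespace Pool.Agent.Results.MP_b85c6a_co.HarmonicLowerBound

open Finset

/-- The Hamming graph `H(d, n)`: two `d`-tuples are adjacent when they differ in exactly one
coordinate. -/
def Hamming (d n : ℕ) : SimpleGraph (Fin d → Fin n) where
  Adj x y := hammingDist x y = 1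
  symm := ⟨fun x y h => by rw [hammingDist_comm]; exact h⟩
  loopless := ⟨fun x h => by simp at h⟩

section Game

variable {V : Type} (G : SimpleGraph V)

/-- The positions of `m` cops during the play, each cop staying put or moving along an edge. -/
def IsSchedule {m : ℕ} (p : ℕ → Fin m → V) : Prop :=
  ∀ t i, p (t + 1) i = p t i ∨ G.Adj (p t i) (p (t + 1) i)

/-- The positions of the robber during the play. -/
def IsTrajectory (r : ℕ → V) : Prop :=
  ∀ t, r (t + 1) = r t ∨ G.Adj (r t) (r (t + 1))

/-- Some cop is within distance `ℓ` of `v`. -/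
def Sees (ℓ : ℕ) {m : ℕ} (c : Fin m → V) (v : V) : Prop := ∃ i, G.dist (c i) v ≤ ℓ

/-- `m` cops can guarantee to see the robber. They get no information before they see him, so that
their strategy is a fixed schedule `p`, where `p 0` are the starting vertices and `p (t + 1)` are the
positions after their move in round `t + 1`; `r 0` is the starting vertex of the robber, and
`r (t + 1)` is his position after his move in round `t + 1`. -/
def CopsGuarantee (ℓ m : ℕ) : Prop :=
  ∃ p : ℕ → Fin m → V, IsSchedule G p ∧
    ∀ r : ℕ → V, IsTrajectory G r → ∃ t, Sees G ℓ (p t) (r t) ∨ Sees G ℓ (p (t + 1)) (r t)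

/-- The least number of cops that can guarantee seeing the robber. -/
noncomputable def visibilityNumber (ℓ : ℕ) : ℕ := sInf {m | CopsGuarantee G ℓ m}

end Game

/-! ### Distances in Hamming graphs -/

lemma hamming_le_length {d n : ℕ} {x y : Fin d → Fin n} (w : (Hamming d n).Walk x y) :
    hammingDist x y ≤ w.length := by
  induction w with
  | nil => simp
  | cons h w ih =>
    rw [SimpleGraph.Walk.length_cons]
    have h1 := hammingDist_triangle _ _ _ |>.trans (add_le_add (le_of_eq h) ih)
    omega

lemma exists_walk {d n : ℕ} : ∀ (k : ℕ) (x y : Fin d → Fin n), hammingDist x y = k →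
    ∃ w : (Hamming d n).Walk x y, w.length = k := by
  intro k
  induction k with
  | zero =>
    intro x y h
    rw [hammingDist_eq_zero] at h
    subst h
    exact ⟨SimpleGraph.Walk.nil, rfl⟩
  | succ k ih =>
    intro x y h
    have hne : x ≠ y := by
      rintro rfl
      rw [hammingDist_self] at h
      omega
    obtain ⟨i, hi⟩ := Function.ne_iff.mp hne
    set z := Function.update x i (y i) with hz
    have h1 : hammingDist x z = 1 := by
      rw [hammingDist, Finset.card_eq_one]
      refine ⟨i, ?_⟩
      ext j
      rw [Finset.mem_filter, Finset.mem_singleton]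
      constructor
      · rintro ⟨-, hj⟩
        by_contra hji
        apply hj
        rw [hz, Function.update_of_ne hji]
      · rintro rfl
        refine ⟨Finset.mem_univ _, ?_⟩
        rw [hz, Function.update_self]
        exact hi
    have h2 : hammingDist z y = k := by
      have : Finset.univ.filter (fun j => x j ≠ y j) =
          insert i (Finset.univ.filter (fun j => z j ≠ y j)) := by
        ext j
        rw [Finset.mem_insert, Finset.mem_filter, Finset.mem_filter]
        by_cases hji : j = i
        · subst hji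
          simp [hi]
        · rw [hz, Function.update_of_ne hji]
          simp [hji]
      have h3 : hammingDist x y = hammingDist z y + 1 := by
        unfold hammingDist
        rw [this, Finset.card_insert_of_notMem]
        rw [Finset.mem_filter, hz, Function.update_self]
        simp
      omega
    obtain ⟨w, hw⟩ := ih z y h2
    exact ⟨SimpleGraph.Walk.cons h1 w, by rw [SimpleGraph.Walk.length_cons, hw]⟩

lemma dist_eq {d n : ℕ} (x y : Fin d → Fin n) : (Hamming d n).dist x y = hammingDist x y := by
  obtain ⟨w, hw⟩ := exists_walk _ x y rfl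
  apply le_antisymm
  · rw [← hw]
    exact SimpleGraph.dist_le w
  · obtain ⟨w', hw'⟩ := (SimpleGraph.Walk.reachable w).exists_walk_length_eq_dist
    rw [← hw']
    exact hamming_le_length w'

/-- A vertex without any common coordinate is not seen. -/
lemma not_sees {d n m : ℕ} (hd : 1 ≤ d) (c : Fin m → Fin d → Fin n) (v : Fin d → Fin n)
    (h : ∀ i j, c i j ≠ v j) : ¬ Sees (Hamming d n) (d - 1) c v := by
  rintro ⟨i, hi⟩
  rw [dist_eq] at hi
  have : hammingDist (c i) v = d := by
    unfold hammingDist
    rw [filter_true_of_mem (fun j _ => h i j), card_univ, Fintype.card_fin]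
  omega

/-! ### The strategy of the robber -/

section Strategy

variable {d n m : ℕ} (p : ℕ → Fin m → Fin d → Fin n)

/-- The number of cops changing their coordinate `j` between `t` and `t + 1`. -/
def ch (j : Fin d) (t : ℕ) : ℕ := (univ.filter (fun i => p (t + 1) i j ≠ p t i j)).card

/-- The number of changes of coordinate `j` between the times `s` and `t`. -/
def cnt (j : Fin d) (s t : ℕ) : ℕ := ∑ u ∈ Ico s t, ch p j u

lemma sum_ch_le (hp : IsSchedule (Hamming d n) p) (t : ℕ) : ∑ j, ch p j t ≤ m := by
  have h1 : ∑ j, ch p j t = ∑ i : Fin m, (univ.filter (fun j => p (t + 1) i j ≠ p t i j)).card := by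
    simp only [ch, card_filter]
    exact sum_comm
  rw [h1]
  calc ∑ i : Fin m, (univ.filter (fun j => p (t + 1) i j ≠ p t i j)).card
      ≤ ∑ _i : Fin m, 1 := by
        apply sum_le_sum
        intro i _
        rcases hp t i with h | h
        · rw [h]
          simp
        · have h2 : hammingDist (p t i) (p (t + 1) i) = 1 := h
          rw [hammingDist_comm] at h2
          exact le_of_eq h2
    _ = m := by simp

/-- The value `v` of the coordinate `j` is not used by the cops from time `s` on, as long as there
are less than `D` changes of this coordinate. -/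
def Good (D : ℕ) (j : Fin d) (v : Fin n) (s : ℕ) : Prop :=
  ∀ t, s ≤ t → cnt p j s t < D → ∀ i, p t i j ≠ v

/-- The values of the coordinate `j` used by the cops between `s` and `s + k`. -/
def used (j : Fin d) (s k : ℕ) : Finset (Fin n) :=
  (range (k + 1)).biUnion (fun u => univ.image (fun i => p (s + u) i j))

lemma card_used (j : Fin d) (s k : ℕ) : (used p j s k).card ≤ m + cnt p j s (s + k) := by
  induction k with
  | zero =>
    rw [used, cnt]
    simp only [zero_add, range_one, singleton_biUnion, add_zero, Ico_self, sum_empty]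
    exact card_image_le.trans (by simp)
  | succ k ih =>
    have h1 : used p j s (k + 1) ⊆ used p j s k ∪
        (univ.filter (fun i => p (s + k + 1) i j ≠ p (s + k) i j)).image
          (fun i => p (s + k + 1) i j) := by
      intro v hv
      rw [used, mem_biUnion] at hv
      obtain ⟨u, hu, hv⟩ := hv
      rw [mem_image] at hv
      obtain ⟨i, -, rfl⟩ := hv
      rw [mem_range] at hu
      rw [mem_union]
      by_cases hu' : u < k + 1
      · left
        rw [used, mem_biUnion]
        exact ⟨u, mem_range.mpr hu', mem_image_of_mem _ (mem_univ i)⟩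
      · have hu'' : u = k + 1 := by omega
        subst hu''
        by_cases hc : p (s + k + 1) i j = p (s + k) i j
        · left
          rw [used, mem_biUnion]
          refine ⟨k, mem_range.mpr (by omega), mem_image.mpr ⟨i, mem_univ i, ?_⟩⟩
          rw [← hc]
          rfl
        · right
          rw [mem_image]
          exact ⟨i, by simpa using hc, rfl⟩
    have h2 : cnt p j s (s + (k + 1)) = cnt p j s (s + k) + ch p j (s + k) := by
      rw [cnt, cnt, ← add_assoc, sum_Ico_succ_top (by omega)]
    calc (used p j s (k + 1)).card ≤ _ := card_le_card h1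
      _ ≤ _ := card_union_le _ _
      _ ≤ (m + cnt p j s (s + k)) + ch p j (s + k) := add_le_add ih card_image_le
      _ = m + cnt p j s (s + (k + 1)) := by rw [h2, add_assoc]

lemma exists_good (D : ℕ) (hD : m + D ≤ n) (hD0 : 0 < D) (j : Fin d) (s : ℕ) :
    ∃ v, Good p D j v s := by
  by_contra hcon
  push Not at hcon
  have h1 : ∀ v : Fin n, ∃ k, cnt p j s (s + k) < D ∧ ∃ i, p (s + k) i j = v := by
    intro v
    have := hcon v
    unfold Good at this
    push Not at this
    obtain ⟨t, ht, h2, i, h3⟩ := this
    refine ⟨t - s, ?_, i, ?_⟩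
    · rw [Nat.add_sub_cancel' ht]
      exact h2
    · rw [Nat.add_sub_cancel' ht]
      exact h3
  choose k hk1 hk2 using h1
  have hn : 0 < n := by omega
  have hne : (univ : Finset (Fin n)).Nonempty := ⟨⟨0, hn⟩, mem_univ _⟩
  obtain ⟨v0, -, hv0⟩ := exists_max_image univ k hne
  have h4 : (univ : Finset (Fin n)) ⊆ used p j s (k v0) := by
    intro v _
    rw [used, mem_biUnion]
    obtain ⟨i, hi⟩ := hk2 v
    refine ⟨k v, mem_range.mpr ?_, mem_image.mpr ⟨i, mem_univ i, hi⟩⟩
    have := hv0 v (mem_univ v)
    omega
  have h5 := card_le_card h4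
  rw [card_univ, Fintype.card_fin] at h5
  have h6 := card_used p j s (k v0)
  have h7 := hk1 v0
  omega

/-- The coordinate with the largest counter. -/
lemma exists_max_coord (hd : 1 ≤ d) (f : Fin d → ℕ) : ∃ j, ∀ j', f j' ≤ f j := by
  have hne : (univ : Finset (Fin d)).Nonempty := ⟨⟨0, hd⟩, mem_univ _⟩
  obtain ⟨j, -, hj⟩ := exists_max_image univ f hne
  exact ⟨j, fun j' => hj j' (mem_univ j')⟩

/-- The coordinate which is refreshed. -/
noncomputable def top (hd : 1 ≤ d) (f : Fin d → ℕ) : Fin d := (exists_max_coord hd f).choose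

lemma top_spec (hd : 1 ≤ d) (f : Fin d → ℕ) (j' : Fin d) : f j' ≤ f (top hd f) :=
  (exists_max_coord hd f).choose_spec j'

/-- The times of the last refreshments. -/
noncomputable def sched (hd : 1 ≤ d) : ℕ → Fin d → ℕ
  | 0 => fun _ => 0
  | t + 1 => Function.update (sched hd t)
      (top hd (fun j => cnt p j (sched hd t j) (t + 1))) (t + 1)

lemma sched_le (hd : 1 ≤ d) (t : ℕ) (j : Fin d) : sched p hd t j ≤ t := by
  induction t with
  | zero => simp [sched]
  | succ t ih =>
    rw [sched]
    by_cases h : j = top hd (fun j => cnt p j (sched p hd t j) (t + 1))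
    · rw [h, Function.update_self]
    · rw [Function.update_of_ne h]
      omega

lemma cnt_succ (j : Fin d) (s t : ℕ) (h : s ≤ t) : cnt p j s (t + 1) = cnt p j s t + ch p j t := by
  rw [cnt, cnt, sum_Ico_succ_top h]

/-- The bound for the sum of `k` counters, in units of `m`. -/
def bd (d k : ℕ) : ℚ := k * (1 + harmonic (d - 1) - harmonic k)

lemma bd_step (d k : ℕ) : (k : ℚ) * (bd d (k + 1) + 1) = (k + 1) * bd d k := by
  unfold bd
  rw [harmonic_succ]
  have : ((k : ℚ) + 1) ≠ 0 := by positivity
  push_cast
  field_simp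
  ring

lemma harmonic_mono {a b : ℕ} (h : a ≤ b) : harmonic a ≤ harmonic b := by
  induction b, h using Nat.le_induction with
  | base => exact le_rfl
  | succ b _ ih =>
    rw [harmonic_succ]
    have : (0 : ℚ) ≤ (((b : ℕ) + 1 : ℕ) : ℚ)⁻¹ := by positivity
    linarith

lemma bd_mono (d k : ℕ) (h : k + 1 ≤ d) : bd d k ≤ bd d (k + 1) := by
  unfold bd
  rw [harmonic_succ]
  have h1 : harmonic k ≤ harmonic (d - 1) := harmonic_mono (by omega)
  have : ((k : ℚ) + 1) ≠ 0 := by positivity
  have h2 : ((k : ℚ) + 1) * (((k + 1 : ℕ) : ℚ))⁻¹ = 1 := by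
    push_cast
    field_simp
  push_cast at h2 ⊢
  nlinarith

lemma invariant (hd : 1 ≤ d) (hp : IsSchedule (Hamming d n) p) (t : ℕ) :
    ∀ K : Finset (Fin d), (∑ j ∈ K, (cnt p j (sched p hd t j) t : ℚ)) ≤ m * bd d K.card := by
  induction t with
  | zero =>
    intro K
    simp only [sched, cnt, Ico_self, sum_empty, Nat.cast_zero, sum_const_zero]
    apply mul_nonneg (Nat.cast_nonneg m)
    unfold bd
    apply mul_nonneg (Nat.cast_nonneg _)
    have h1 : K.card ≤ d := (card_le_univ K).trans (by simp)
    have h2 : harmonic K.card ≤ harmonic d := harmonic_mono h1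
    have h3 : harmonic d = harmonic (d - 1) + ((d : ℕ) : ℚ)⁻¹ := by
      obtain ⟨e, rfl⟩ : ∃ e, d = e + 1 := ⟨d - 1, by omega⟩
      rw [harmonic_succ]
      simp
    have h4 : ((d : ℕ) : ℚ)⁻¹ ≤ 1 := by
      apply inv_le_one_of_one_le₀
      exact_mod_cast hd
    linarith
  | succ t ih =>
    set f : Fin d → ℕ := fun j => cnt p j (sched p hd t j) (t + 1) with hf
    set j0 := top hd f with hj0
    -- the sums before the refreshment
    have hbefore : ∀ K : Finset (Fin d), (∑ j ∈ K, (f j : ℚ)) ≤ m * (bd d K.card + 1) := by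
      intro K
      have h1 : ∀ j, (f j : ℚ) = cnt p j (sched p hd t j) t + ch p j t := by
        intro j
        rw [hf]
        simp only
        rw [cnt_succ p j _ t (sched_le p hd t j)]
        push_cast
        ring
      simp only [h1, sum_add_distrib]
      have h2 : (∑ j ∈ K, (ch p j t : ℚ)) ≤ m := by
        have h3 : (∑ j ∈ K, ch p j t) ≤ m :=
          (sum_le_univ_sum_of_nonneg (fun _ => Nat.zero_le _)).trans (sum_ch_le p hp t)
        exact_mod_cast h3
      have h3 := ih K
      linarith
    -- the sums without the refreshed coordinate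
    have hwithout : ∀ K : Finset (Fin d), j0 ∉ K → (∑ j ∈ K, (f j : ℚ)) ≤ m * bd d K.card := by
      intro K hK
      have h1 := hbefore (insert j0 K)
      rw [sum_insert hK, card_insert_of_notMem hK] at h1
      have h2 : (∑ j ∈ K, (f j : ℚ)) ≤ K.card * f j0 := by
        calc (∑ j ∈ K, (f j : ℚ)) ≤ ∑ _j ∈ K, (f j0 : ℚ) :=
              sum_le_sum (fun j _ => by exact_mod_cast top_spec hd f j)
          _ = K.card * f j0 := by rw [sum_const, nsmul_eq_mul]
      have h3 := bd_step d K.card
      set k : ℚ := (K.card : ℚ) with hk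
      set S : ℚ := ∑ j ∈ K, (f j : ℚ) with hS
      have hk0 : 0 ≤ k := Nat.cast_nonneg _
      have h4 : (k + 1) * S ≤ (k + 1) * (m * bd d K.card) := by
        calc (k + 1) * S = k * S + S := by ring
          _ ≤ k * S + k * f j0 := by linarith
          _ = k * (f j0 + S) := by ring
          _ ≤ k * (m * (bd d (K.card + 1) + 1)) := mul_le_mul_of_nonneg_left h1 hk0
          _ = m * (k * (bd d (K.card + 1) + 1)) := by ring
          _ = m * ((k + 1) * bd d K.card) := by rw [h3]
          _ = (k + 1) * (m * bd d K.card) := by ring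
      exact le_of_mul_le_mul_left h4 (by positivity)
    intro K
    have hval : ∀ j, j ≠ j0 → cnt p j (sched p hd (t + 1) j) (t + 1) = f j := by
      intro j hj
      rw [sched, Function.update_of_ne hj]
    have hval0 : cnt p j0 (sched p hd (t + 1) j0) (t + 1) = 0 := by
      rw [sched, Function.update_self, cnt, Ico_self, sum_empty]
    by_cases hK : j0 ∈ K
    · have h1 : (∑ j ∈ K, (cnt p j (sched p hd (t + 1) j) (t + 1) : ℚ)) =
          ∑ j ∈ K.erase j0, (f j : ℚ) := by
        rw [← add_sum_erase K _ hK, hval0, Nat.cast_zero, zero_add]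
        apply sum_congr rfl
        intro j hj
        rw [hval j (ne_of_mem_erase hj)]
      rw [h1]
      refine (hwithout _ (notMem_erase _ _)).trans ?_
      apply mul_le_mul_of_nonneg_left _ (Nat.cast_nonneg m)
      have h2 : K.card = (K.erase j0).card + 1 := by
        rw [card_erase_add_one hK]
      rw [h2]
      apply bd_mono
      rw [← h2]
      exact (card_le_univ K).trans (by simp)
    · have h1 : (∑ j ∈ K, (cnt p j (sched p hd (t + 1) j) (t + 1) : ℚ)) =
          ∑ j ∈ K, (f j : ℚ) := by
        apply sum_congr rfl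
        intro j hj
        rw [hval j (fun h => hK (h ▸ hj))]
      rw [h1]
      exact hwithout K hK

lemma counter_le (hd : 1 ≤ d) (hp : IsSchedule (Hamming d n) p) (t : ℕ) (j : Fin d) :
    (cnt p j (sched p hd t j) (t + 1) : ℚ) ≤ m * (1 + harmonic (d - 1)) := by
  have h1 := invariant p hd hp t {j}
  rw [sum_singleton, card_singleton, bd, harmonic_succ, harmonic_zero] at h1
  rw [cnt_succ p j _ t (sched_le p hd t j)]
  have h2 : ch p j t ≤ m :=
    (single_le_sum (fun _ _ => Nat.zero_le _) (mem_univ j)).trans (sum_ch_le p hp t)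
  have h3 : (ch p j t : ℚ) ≤ m := by exact_mod_cast h2
  push_cast at h1 ⊢
  norm_num at h1
  linarith

end Strategy

/-- `m` cops do not see the robber on `H(d, n)` if `m * (2 + H (d - 1)) < n`. -/
lemma not_guarantee (d n m : ℕ) (hd : 1 ≤ d) (h : (m : ℚ) * (2 + harmonic (d - 1)) < n) :
    ¬ CopsGuarantee (Hamming d n) (d - 1) m := by
  rintro ⟨p, hp, hwin⟩
  have hH : (0 : ℚ) ≤ harmonic (d - 1) := by
    have := harmonic_mono (Nat.zero_le (d - 1))
    simpa using this
  have hm : (m : ℚ) < n := by
    have : (0 : ℚ) ≤ m := Nat.cast_nonneg m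
    nlinarith
  have hmn : m < n := by exact_mod_cast hm
  set D := n - m with hD
  have hgood := exists_good p D (by omega) (by omega)
  choose g hg using hgood
  -- the positions of the robber
  let r : ℕ → Fin d → Fin n := fun t j => g j (sched p hd t j)
  have hr : IsTrajectory (Hamming d n) r := by
    intro t
    set j0 := top hd (fun j => cnt p j (sched p hd t j) (t + 1)) with hj0
    have hsame : ∀ j, j ≠ j0 → r (t + 1) j = r t j := by
      intro j hj
      simp only [r]
      rw [sched, Function.update_of_ne hj]
    by_cases hc : r (t + 1) j0 = r t j0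
    · left
      funext j
      by_cases hj : j = j0
      · rw [hj, hc]
      · exact hsame j hj
    · right
      show hammingDist (r t) (r (t + 1)) = 1
      rw [hammingDist, card_eq_one]
      refine ⟨j0, ?_⟩
      ext j
      rw [mem_filter, mem_singleton]
      constructor
      · rintro ⟨-, hj⟩
        by_contra hne
        exact hj (hsame j hne).symm
      · rintro rfl
        exact ⟨mem_univ _, fun h => hc h.symm⟩
  have hcnt : ∀ t j, cnt p j (sched p hd t j) (t + 1) < D := by
    intro t j
    have h1 := counter_le p hd hp t j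
    have h2 : (D : ℚ) = n - m := by
      rw [hD]
      push_cast [hmn.le]
      ring
    have h3 : (cnt p j (sched p hd t j) (t + 1) : ℚ) < D := by
      rw [h2]
      linarith
    exact_mod_cast h3
  obtain ⟨t, ht | ht⟩ := hwin r hr
  · refine not_sees hd _ _ ?_ ht
    intro i j
    refine hg j (sched p hd t j) t (sched_le p hd t j) ?_ i
    have h1 := hcnt t j
    rw [cnt_succ p j _ t (sched_le p hd t j)] at h1
    omega
  · refine not_sees hd _ _ ?_ ht
    intro i j
    have := sched_le p hd t j
    exact hg j (sched p hd t j) (t + 1) (by omega) (hcnt t j) i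

/-- `n` cops see the robber immediately. -/
lemma guarantee (d n : ℕ) (hd : 1 ≤ d) : CopsGuarantee (Hamming d n) (d - 1) n := by
  refine ⟨fun _ i _ => i, fun t i => Or.inl rfl, fun r _ => ⟨0, Or.inl ⟨r 0 ⟨0, hd⟩, ?_⟩⟩⟩
  rw [dist_eq]
  have h1 : (univ.filter (fun j => (fun _ => r 0 ⟨0, hd⟩ : Fin d → Fin n) j ≠ r 0 j)) ⊆
      univ.erase ⟨0, hd⟩ := by
    intro j hj
    rw [mem_filter] at hj
    rw [mem_erase]
    refine ⟨?_, mem_univ j⟩
    rintro rfl
    exact hj.2 rfl
  have h2 := card_le_card h1
  rw [card_erase_of_mem (mem_univ _), card_univ, Fintype.card_fin] at h2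
  exact h2

lemma lower_bound (d n : ℕ) (hd : 1 ≤ d) :
    (n : ℚ) ≤ visibilityNumber (Hamming d n) (d - 1) * (2 + harmonic (d - 1)) := by
  by_contra hcon
  rw [not_le] at hcon
  have hmem : visibilityNumber (Hamming d n) (d - 1) ∈
      {m | CopsGuarantee (Hamming d n) (d - 1) m} := Nat.sInf_mem ⟨n, guarantee d n hd⟩
  exact not_guarantee d n _ hd hcon hmem

lemma harmonic_lt (d : ℕ) (hd : 3 ≤ d) : harmonic (d - 1) < d - 1 := by
  induction d, hd using Nat.le_induction with
  | base =>
    norm_num [harmonic_succ]
  | succ d hd ih =>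
    obtain ⟨e, rfl⟩ : ∃ e, d = e + 1 := ⟨d - 1, by omega⟩
    simp only [Nat.add_sub_cancel] at ih ⊢
    rw [harmonic_succ]
    have h1 : (((e + 1 : ℕ) : ℚ))⁻¹ ≤ 1 := by
      apply inv_le_one_of_one_le₀
      exact_mod_cast Nat.succ_pos e
    push_cast at ih ⊢
    push_cast at h1
    linarith

/-- The visibility number of `H(d, n)` is at least `n / (2 + H (d - 1))`; in particular
`visibilityNumber * (d + 1) / n` does not tend to `1` for any `d ≥ 3`. -/
theorem result :
    (∀ d n : ℕ, 1 ≤ d →
      (n : ℝ) / (2 + harmonic (d - 1)) ≤ visibilityNumber (Hamming d n) (d - 1)) ∧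
    (∀ d : ℕ, 3 ≤ d → ¬ Filter.Tendsto
      (fun n : ℕ => (visibilityNumber (Hamming d n) (d - 1) : ℝ) * (d + 1) / n)
      Filter.atTop (nhds 1)) := by
  have key : ∀ d n : ℕ, 1 ≤ d →
      (n : ℝ) / (2 + harmonic (d - 1)) ≤ visibilityNumber (Hamming d n) (d - 1) := by
    intro d n hd
    have hH : (0 : ℚ) ≤ harmonic (d - 1) := by
      have := harmonic_mono (Nat.zero_le (d - 1))
      simpa using this
    have hH' : (0 : ℝ) ≤ (harmonic (d - 1) : ℚ) := by exact_mod_cast hH
    rw [div_le_iff₀ (by positivity)]
    have h := lower_bound d n hd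
    exact_mod_cast h
  refine ⟨key, fun d hd htend => ?_⟩
  have hH : (0 : ℚ) ≤ harmonic (d - 1) := by
    have := harmonic_mono (Nat.zero_le (d - 1))
    simpa using this
  have hH' : (0 : ℝ) ≤ (harmonic (d - 1) : ℚ) := by exact_mod_cast hH
  have hlt : ((harmonic (d - 1) : ℚ) : ℝ) < d - 1 := by exact_mod_cast harmonic_lt d hd
  have hpos : (0 : ℝ) < 2 + (harmonic (d - 1) : ℚ) := by positivity
  set q : ℝ := (d + 1) / (2 + (harmonic (d - 1) : ℚ)) with hq
  have hq1 : 1 < q := by
    rw [hq, one_lt_div hpos]
    linarith
  have h1 : ∀ᶠ n : ℕ in Filter.atTop,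
      q ≤ (visibilityNumber (Hamming d n) (d - 1) : ℝ) * (d + 1) / n := by
    filter_upwards [Filter.eventually_ge_atTop 1] with n hn
    have hn' : (0 : ℝ) < n := by exact_mod_cast hn
    rw [le_div_iff₀ hn']
    have h2 := key d n (by omega)
    calc q * n = (n : ℝ) / (2 + (harmonic (d - 1) : ℚ)) * (d + 1) := by
          rw [hq]
          ring
      _ ≤ (visibilityNumber (Hamming d n) (d - 1) : ℝ) * (d + 1) :=
          mul_le_mul_of_nonneg_right h2 (by positivity)
  have h2 := ge_of_tendsto htend h1
  linarith

end Pool.Agent.Results.MP_b85c6a_co.HarmonicLowerBound
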